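import Pool.Agent.Helper73.OB.GoalsA

/-!
Project OB, packet COD.
-/

open MeasureTheory ProbabilityTheory
open scoped ENNReal

namespace Pool.Agent.Helper80.OB

open Pool.Agent.Helper73.OB

theorem run_snoc {S X : Type} (f : S → X → X) (w : List S) (s : S) (x : X) :
    run f (w ++ [s]) x = f s (run f w x) := by
  rw [run_append]
  rfl

/-- `enc` depends only on the values along the orbit. -/
theorem enc_local (hN : S_NAT) {S X : Type} (p : Bit → S) (δ : Bit) (f : S → X → X)
    (s s' : X → Sk) (x : X) (h : ∀ w : List S, s (run f w x) = s' (run f w x)) :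
    enc p δ f s x = enc p δ f s' x := by
  have h1 := (hN S (List S) X p δ (fun a w => w ++ [a]) f (fun w => run f w x)
    (fun a w => run_snoc f w a x)).2.2.1
  have h2 := h1 s []
  have h3 := h1 s' []
  have h4 : (fun w : List S => s (run f w x)) = fun w => s' (run f w x) := funext h
  rw [h4] at h2
  have h5 : run f [] x = x := rfl
  rw [h5] at h2 h3
  rw [← h2, ← h3]

theorem cod (h_modsys : S_MODSYS) (h_prb : S_PRB) (h_meas : S_MEAS) (h_nat : S_NAT)
    (h_root : S_ROOT) (h_group : S_GROUP) (h_glue3 : S_GLUE3) (h_e3mp : S_E3MP)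
    (h_cod2b : S_COD2B) (h_trans : S_TRANS) : S_COD := by
  intro S _ β p δ hfr e he X _ μ _ f hf l hl
  have hp3 : IsProbabilityMeasure (lawL3 e) := (h_prb.2 e).2.2.2.1
  have hp : IsProbabilityMeasure (lawL e) := (h_prb.2 e).2.2.1
  -- the models
  obtain ⟨sys3, bnl3⟩ := h_modsys S β hfr.inv Lb3 (lawL3 e)
  obtain ⟨sysL, bnlL⟩ := h_modsys S β hfr.inv Lb (lawL e)
  have hr3 : Measurable (fun ω : RW β → Lb3 => ω (rootW β)) := measurable_pi_apply _
  have hrL : Measurable (fun ω : RW β → Lb => ω (rootW β)) := measurable_pi_apply _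
  have M3 := h_meas S (RW β → Lb3) p δ (shiftR β) (fun s => (sys3.mp s).measurable)
  have ML := h_meas S (RW β → Lb) p δ (shiftR β) (fun s => (sysL.mp s).measurable)
  have MX := h_meas S X p δ f (fun s => (hf.mp s).measurable)
  obtain ⟨hroot, hdep⟩ := h_root S β p δ hfr e he
  have ms3 : Measurable (S3 p δ (shiftR β) (fun ω : RW β → Lb3 => ω (rootW β))) :=
    (M3.2.1 _ hr3).1
  have TM3 : TM β p δ e (iid β (lawL3 e)) (shiftR β)
      (S3 p δ (shiftR β) (fun ω : RW β → Lb3 => ω (rootW β))) := by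
    refine ⟨ms3, ?_, ?_⟩
    · have h1 := h_group S β p δ hfr Lb3 Sk (lawL3 e) _ ms3 hdep
      rw [hroot] at h1
      exact h1
    · exact h_glue3 S β p δ hfr e he
  -- the map to the label model
  have eq1 : ∀ (s : S) (ω : RW β → Lb3),
      field β (shiftR β) (E3 p δ (shiftR β) (fun ω : RW β → Lb3 => ω (rootW β)))
        (shiftR β s ω) = shiftR β s (field β (shiftR β)
          (E3 p δ (shiftR β) (fun ω : RW β → Lb3 => ω (rootW β))) ω) := by
    intro s ω
    exact field_shift (fun s x => shiftR_inv hfr.inv s x) _ s ω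
  have mp1 := h_e3mp S β p δ hfr e
  have N1 := h_nat S (RW β → Lb3) (RW β → Lb) p δ (shiftR β) (shiftR β)
    (field β (shiftR β) (E3 p δ (shiftR β) (fun ω : RW β → Lb3 => ω (rootW β)))) eq1
  have c2 := h_cod2b S β p δ hfr e he (RW β → Lb3) (iid β (lawL3 e)) (shiftR β) sys3
    (fun ω : RW β → Lb3 => ω (rootW β)) bnl3
  have d1 : ∀ ω : RW β → Lb3,
      dec p δ (shiftR β) (fun ω : RW β → Lb => ω (rootW β))
        (field β (shiftR β) (E3 p δ (shiftR β) (fun ω : RW β → Lb3 => ω (rootW β))) ω) =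
      dec p δ (shiftR β) (E3 p δ (shiftR β) (fun ω : RW β → Lb3 => ω (rootW β))) ω := by
    intro ω
    rw [← N1.2.2.2]
    rfl
  have md : Measurable (dec p δ (shiftR β) (fun ω : RW β → Lb => ω (rootW β))) :=
    ML.2.2.2 _ hrL
  have TML : TM β p δ e (iid β (lawL e)) (shiftR β)
      (dec p δ (shiftR β) (fun ω : RW β → Lb => ω (rootW β))) := by
    refine (h_trans S β p δ e (RW β → Lb3) (RW β → Lb) (iid β (lawL3 e)) (iid β (lawL e))
      (shiftR β) (shiftR β) sys3 sysL _ mp1 eq1 _ _ ms3 md ?_).1 TM3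
    filter_upwards [c2] with ω hω
    rw [d1, hω.1]
  -- enc ∘ dec on the label model
  have hall : ∀ᵐ ω ∂(iid β (lawL3 e)), ∀ w : List S,
      dec p δ (shiftR β) (E3 p δ (shiftR β) (fun ω : RW β → Lb3 => ω (rootW β)))
        (run (shiftR β) w ω) =
      S3 p δ (shiftR β) (fun ω : RW β → Lb3 => ω (rootW β)) (run (shiftR β) w ω) := by
    rw [ae_all_iff]
    intro w
    have := (sys3.run_mp w).quasiMeasurePreserving.ae c2
    filter_upwards [this] with ω hω
    exact hω.1
  have me : Measurable (enc p δ (shiftR β)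
      (dec p δ (shiftR β) (fun ω : RW β → Lb => ω (rootW β)))) := ML.2.2.1 _ md
  have hset : MeasurableSet {η : RW β → Lb | enc p δ (shiftR β)
      (dec p δ (shiftR β) (fun ω : RW β → Lb => ω (rootW β))) η = η (rootW β)} :=
    measurableSet_eq_fun me hrL
  have encL : ∀ᵐ η ∂(iid β (lawL e)), enc p δ (shiftR β)
      (dec p δ (shiftR β) (fun ω : RW β → Lb => ω (rootW β))) η = η (rootW β) := by
    rw [← mp1.map_eq, ae_map_iff mp1.measurable.aemeasurable hset]
    filter_upwards [hall, c2] with ω h1 h2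
    rw [← N1.2.2.1]
    have h3 : (fun y => dec p δ (shiftR β) (fun ω : RW β → Lb => ω (rootW β))
        (field β (shiftR β) (E3 p δ (shiftR β) (fun ω : RW β → Lb3 => ω (rootW β))) y)) =
        dec p δ (shiftR β) (E3 p δ (shiftR β) (fun ω : RW β → Lb3 => ω (rootW β))) :=
      funext d1
    rw [h3, enc_local h_nat p δ (shiftR β) _ _ ω h1, h2.2, field_root]
  -- the general case
  have eq2 : ∀ (s : S) (x : X), field β f l (f s x) = shiftR β s (field β f l x) :=
    fun s x => field_shift hf.inv l s x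
  have N2 := h_nat S X (RW β → Lb) p δ f (shiftR β) (field β f l) eq2
  have d2 : ∀ x, dec p δ (shiftR β) (fun ω : RW β → Lb => ω (rootW β)) (field β f l x) =
      dec p δ f l x := by
    intro x
    rw [← N2.2.2.2]
    rfl
  have mdX : Measurable (dec p δ f l) := MX.2.2.2 _ hl.1
  constructor
  · exact (h_trans S β p δ e X (RW β → Lb) μ (iid β (lawL e)) f (shiftR β) hf sysL _ hl.2 eq2
      (dec p δ f l) _ mdX md (Filter.Eventually.of_forall d2)).2 TML
  · have h1 := hl.2.quasiMeasurePreserving.ae encL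
    filter_upwards [h1] with x hx
    rw [← N2.2.2.1, field_root] at hx
    have h3 : (fun y => dec p δ (shiftR β) (fun ω : RW β → Lb => ω (rootW β)) (field β f l y)) =
        dec p δ f l := funext d2
    rw [h3] at hx
    exact hx

end Pool.Agent.Helper80.OB
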