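import Pool.Agent.Helper73.OB.GoalsA

/-!
Project OB, packet GROUP.
-/

open MeasureTheory ProbabilityTheory
open scoped ENNReal

namespace Pool.Agent.Helper80.OB

open Pool.Agent.Helper73.OB

/-- The coordinates used by the function. -/
def CW {S : Type} (p : Bit → S) (w : List S) : Prop := w = [] ∨ ∃ z, w.head? = some (p z)

theorem red_hc {S : Type} {β : S → S} {p : Bit → S} {δ : Bit} (hfr : Fr β p δ) {h w : List S}
    (hh : Red β h ∧ IsH p h) (hw : Red β w) (hc : CW p w) : Red β (h ++ w) := by
  refine Red.append hh.1 hw ?_
  intro a ha b hb hab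
  rcases hc with rfl | ⟨z, hz⟩
  · simp at hb
  · have hb' : b = p z := by
      rw [Option.mem_def, hz] at hb
      exact (Option.some.inj hb).symm
    have ha' : a ∈ h := List.mem_of_getLast? ha
    apply hh.2 a ha'
    refine ⟨z + 1 + δ, ?_⟩
    rw [← hfr.bp z, ← hb', hab, hfr.inv]

theorem inj_hc {S : Type} {p : Bit → S} {h h' w w' : List S} (hh : IsH p h)
    (hh' : IsH p h') (hc : CW p w) (hc' : CW p w') (he : h ++ w = h' ++ w') :
    h = h' ∧ w = w' := by
  induction h generalizing h' with
  | nil =>
    cases h' with
    | nil => exact ⟨rfl, by simpa using he⟩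
    | cons a h' =>
      exfalso
      simp only [List.nil_append] at he
      rcases hc with rfl | ⟨z, hz⟩
      · simp at he
      · rw [he] at hz
        simp only [List.cons_append, List.head?_cons, Option.some.injEq] at hz
        exact hh' a (by simp) ⟨z, hz.symm⟩
  | cons b h ih =>
    cases h' with
    | nil =>
      exfalso
      simp only [List.nil_append] at he
      rcases hc' with rfl | ⟨z, hz⟩
      · simp at he
      · rw [← he] at hz
        simp only [List.cons_append, List.head?_cons, Option.some.injEq] at hz
        exact hh b (by simp) ⟨z, hz.symm⟩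
    | cons a h' =>
      simp only [List.cons_append, List.cons.injEq] at he
      obtain ⟨h1, h2⟩ := ih (h' := h') (fun x hx => hh x (by simp [hx]))
        (fun x hx => hh' x (by simp [hx])) he.2
      exact ⟨by rw [he.1, h1], h2⟩

theorem group : S_GROUP := by
  classical
  intro S _ β p δ hfr L T _ _ law _ Φ hΦ hdep
  let C := {w : RW β // CW p w.1}
  obtain ⟨a0⟩ : Nonempty L := by
    by_contra hne
    rw [not_nonempty_iff] at hne
    have h1 : law Set.univ = 1 := measure_univ
    rw [Set.eq_empty_of_isEmpty (Set.univ : Set L), measure_empty] at h1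
    exact zero_ne_one h1
  -- the extension
  let ext : (C → L) → (RW β → L) := fun ξ w => if h : CW p w.1 then ξ ⟨w, h⟩ else a0
  have hext : Measurable ext := by
    refine measurable_pi_lambda _ fun w => ?_
    by_cases h : CW p w.1
    · simp only [ext, h, dif_pos]
      exact measurable_pi_apply _
    · simp only [ext, h, dif_neg, not_false_eq_true]
      exact measurable_const
  let Ψ : (C → L) → T := fun ξ => Φ (ext ξ)
  have hΨ : Measurable Ψ := hΦ.comp hext
  let e : HW β p × C → RW β := fun q => ⟨q.1.1 ++ q.2.1.1, red_hc hfr q.1.2 q.2.1.2 q.2.2⟩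
  have he : Function.Injective e := by
    intro q q' h
    have h1 := congrArg Subtype.val h
    obtain ⟨h2, h3⟩ := inj_hc q.1.2.2 q'.1.2.2 q.2.2 q'.2.2 h1
    exact Prod.ext (Subtype.ext h2) (Subtype.ext (Subtype.ext h3))
  have hval : ∀ (ω : RW β → L) (h : HW β p),
      Φ (run (shiftR β) h.1 ω) = Ψ (fun c => ω (e (h, c))) := by
    intro ω h
    apply hdep
    intro w hw
    rw [run_shiftR]
    have hw' : CW p w.1 := hw
    simp only [ext, hw', dif_pos]
    congr 1
    apply Subtype.ext
    exact red_of_Red (red_hc hfr h.2 w.2 hw')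
  have hlaw : (iid β law).map Φ = (Measure.infinitePi fun _ : C => law).map Ψ := by
    have h1 : (iid β law).map (fun ω (c : C) => ω c.1) = Measure.infinitePi fun _ : C => law :=
      Measure.map_infinitePi_infinitePi_of_inj (P := fun _ : RW β => law) (f := fun c : C => c.1)
        Subtype.val_injective
    rw [← h1, Measure.map_map hΨ (measurable_pi_lambda _ fun c => measurable_pi_apply _)]
    congr 1
    funext ω
    apply hdep
    intro w hw
    have hw' : CW p w.1 := hw
    simp only [ext, hw', dif_pos]
  have hfun : (fun (ω : RW β → L) (h : HW β p) => Φ (run (shiftR β) h.1 ω)) =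
      (fun (g : HW β p → C → L) h => Ψ (g h)) ∘
        (MeasurableEquiv.curry (HW β p) C L) ∘ (fun (ω : RW β → L) q => ω (e q)) := by
    funext ω h
    rw [hval]
    rfl
  have m1 : Measurable (fun (ω : RW β → L) q => ω (e q)) :=
    measurable_pi_lambda _ fun q => measurable_pi_apply _
  have m2 : Measurable (fun (g : HW β p → C → L) h => Ψ (g h)) :=
    measurable_pi_lambda _ fun h => hΨ.comp (measurable_pi_apply h)
  rw [hfun]
  refine ⟨m2.comp ((MeasurableEquiv.curry (HW β p) C L).measurable.comp m1), ?_⟩
  rw [← Measure.map_map m2 ((MeasurableEquiv.curry (HW β p) C L).measurable.comp m1),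
    ← Measure.map_map (MeasurableEquiv.curry (HW β p) C L).measurable m1]
  have h2 : (iid β law).map (fun (ω : RW β → L) q => ω (e q)) =
      Measure.infinitePi fun _ : HW β p × C => law :=
    Measure.map_infinitePi_infinitePi_of_inj (P := fun _ : RW β => law) he
  rw [h2]
  have h3 := Measure.infinitePi_map_curry (fun (_ : HW β p) (_ : C) => law)
  rw [h3]
  have h4 := Measure.infinitePi_map_pi (fun _ : HW β p => Measure.infinitePi fun _ : C => law)
    (f := fun _ => Ψ) (fun _ => hΨ)
  rw [h4, hlaw]

end Pool.Agent.Helper80.OB
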