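import Pool.Agent.Helper73.OB.GoalsA

/-!
Project OB, packet TRANS.
-/

open MeasureTheory ProbabilityTheory
open scoped ENNReal

namespace Pool.Agent.Helper80.OB

open Pool.Agent.Helper73.OB

theorem meas_bit {X : Type} [MeasurableSpace X] {s : X → Sk} (hs : Measurable s) (d z c : Bit) :
    MeasurableSet {x | (s x).2.1 d z = c} := by
  have h1 : Measurable fun x => (s x).2.1 := (measurable_fst.comp measurable_snd).comp hs
  have h2 : Measurable fun x => (s x).2.1 d := (measurable_pi_apply d).comp h1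
  have h3 : Measurable fun x => (s x).2.1 d z := (measurable_pi_apply z).comp h2
  exact h3 (measurableSet_singleton c)

theorem meas_psi {S X L : Type} [MeasurableSpace X] [MeasurableSpace L] {β : S → S} {μ : Measure X}
    {f : S → X → X} (hf : Sys β μ f) {s : X → L} (hs : Measurable s) {ι : Type} (g : ι → List S) :
    Measurable fun x (w : ι) => s (run f (g w) x) :=
  measurable_pi_lambda _ fun _ => hs.comp (hf.run_mp _).measurable

theorem trans : S_TRANS := by
  intro S _ β p δ e X X' _ _ μ μ' _ f f' hf hf' π hπ heq s s' hs hs' hss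
  have hrun : ∀ (w : List S) (x : X), π (run f w x) = run f' w (π x) :=
    fun w x => run_equivariant heq w x
  have hae : ∀ᵐ x ∂μ, ∀ w : List S, s' (run f' w (π x)) = s (run f w x) := by
    rw [ae_all_iff]
    intro w
    have h1 := (hf.run_mp w).quasiMeasurePreserving.ae hss
    filter_upwards [h1] with x hx
    rw [← hrun]
    exact hx
  have key : ∀ (A : Set X) (A' : Set X'), MeasurableSet A' → A =ᵐ[μ] π ⁻¹' A' → μ A = μ' A' := by
    intro A A' hA' h
    rw [measure_congr h, hπ.measure_preimage hA'.nullMeasurableSet]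
  have hcos : MeasurePreserving (fun x (h : HW β p) => s (run f h.1 x)) μ
      (Measure.infinitePi fun _ : HW β p => kap e) ↔
      MeasurePreserving (fun x (h : HW β p) => s' (run f' h.1 x)) μ'
      (Measure.infinitePi fun _ : HW β p => kap e) := by
    have m1 : Measurable fun x (h : HW β p) => s (run f h.1 x) := meas_psi hf hs _
    have m2 : Measurable fun x (h : HW β p) => s' (run f' h.1 x) := meas_psi hf' hs' _
    have hmap : μ.map (fun x (h : HW β p) => s (run f h.1 x)) =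
        μ'.map (fun x (h : HW β p) => s' (run f' h.1 x)) := by
      rw [← hπ.map_eq, Measure.map_map m2 hπ.measurable]
      apply Measure.map_congr
      filter_upwards [hae] with x hx
      funext h
      exact (hx h.1).symm
    constructor
    · intro h
      exact ⟨m2, by rw [← hmap]; exact h.map_eq⟩
    · intro h
      exact ⟨m1, by rw [hmap]; exact h.map_eq⟩
  have hpsi : ∀ (Q : Set (List S)) (B : Set (Q → Sk)), ∀ᵐ x ∂μ,
      (x ∈ (fun x (w : Q) => s (run f w.1 x)) ⁻¹' B ↔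
        π x ∈ (fun x (w : Q) => s' (run f' w.1 x)) ⁻¹' B) := by
    intro Q B
    filter_upwards [hae] with x hx
    have h1 : (fun w : Q => s (run f w.1 x)) = fun w : Q => s' (run f' w.1 (π x)) := by
      funext w
      exact (hx w.1).symm
    simp only [Set.mem_preimage]
    rw [h1]
  have hpsi2 : ∀ (a : S) (Q : Set (List S)) (B : Set (Q → Sk)), ∀ᵐ x ∂μ,
      (f a x ∈ (fun x (w : Q) => s (run f w.1 x)) ⁻¹' B ↔
        f' a (π x) ∈ (fun x (w : Q) => s' (run f' w.1 x)) ⁻¹' B) := by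
    intro a Q B
    have h1 := (hf.mp a).quasiMeasurePreserving.ae (hpsi Q B)
    filter_upwards [h1] with x hx
    rw [hx, heq]
  have hbit : ∀ d z c : Bit, ∀ᵐ x ∂μ, ((s x).2.1 d z = c ↔ (s' (π x)).2.1 d z = c) := by
    intro d z c
    filter_upwards [hss] with x hx
    rw [hx]
  have e1 : ∀ (z c : Bit) (Q Q2 : Set (List S)) (B : Set (Q → Sk)) (B2 : Set (Q2 → Sk)),
      MeasurableSet B → MeasurableSet B2 →
      μ ({x | (s x).2.1 δ z = c} ∩ (fun x (w : Q) => s (run f w.1 x)) ⁻¹' B ∩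
        f (p z) ⁻¹' ((fun x (w : Q2) => s (run f w.1 x)) ⁻¹' B2)) =
      μ' ({x | (s' x).2.1 δ z = c} ∩ (fun x (w : Q) => s' (run f' w.1 x)) ⁻¹' B ∩
        f' (p z) ⁻¹' ((fun x (w : Q2) => s' (run f' w.1 x)) ⁻¹' B2)) := by
    intro z c Q Q2 B B2 hB hB2
    apply key
    · exact ((meas_bit hs' _ _ _).inter (meas_psi hf' hs' _ hB)).inter
        ((hf'.mp _).measurable (meas_psi hf' hs' _ hB2))
    · filter_upwards [hpsi Q B, hpsi2 (p z) Q2 B2, hbit δ z c] with x h1 h2 h3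
      have : (x ∈ {x | (s x).2.1 δ z = c} ∩ (fun x (w : Q) => s (run f w.1 x)) ⁻¹' B ∩
        f (p z) ⁻¹' ((fun x (w : Q2) => s (run f w.1 x)) ⁻¹' B2)) ↔
        (π x ∈ {x | (s' x).2.1 δ z = c} ∩ (fun x (w : Q) => s' (run f' w.1 x)) ⁻¹' B ∩
        f' (p z) ⁻¹' ((fun x (w : Q2) => s' (run f' w.1 x)) ⁻¹' B2)) := by
        constructor
        · rintro ⟨⟨a, b⟩, c⟩
          exact ⟨⟨h3.1 a, h1.1 b⟩, h2.1 c⟩
        · rintro ⟨⟨a, b⟩, c⟩
          exact ⟨⟨h3.2 a, h1.2 b⟩, h2.2 c⟩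
      exact propext this
  have e2 : ∀ (z c : Bit) (Q : Set (List S)) (B : Set (Q → Sk)), MeasurableSet B →
      μ ({x | (s x).2.1 δ z = c} ∩ (fun x (w : Q) => s (run f w.1 x)) ⁻¹' B) =
      μ' ({x | (s' x).2.1 δ z = c} ∩ (fun x (w : Q) => s' (run f' w.1 x)) ⁻¹' B) := by
    intro z c Q B hB
    apply key
    · exact (meas_bit hs' _ _ _).inter (meas_psi hf' hs' _ hB)
    · filter_upwards [hpsi Q B, hbit δ z c] with x h1 h3
      have : (x ∈ {x | (s x).2.1 δ z = c} ∩ (fun x (w : Q) => s (run f w.1 x)) ⁻¹' B) ↔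
        (π x ∈ {x | (s' x).2.1 δ z = c} ∩ (fun x (w : Q) => s' (run f' w.1 x)) ⁻¹' B) := by
        constructor
        · rintro ⟨a, b⟩
          exact ⟨h3.1 a, h1.1 b⟩
        · rintro ⟨a, b⟩
          exact ⟨h3.2 a, h1.2 b⟩
      exact propext this
  constructor
  · intro h
    refine ⟨hs', hcos.1 h.cos, ?_⟩
    intro z c E F hE hF
    obtain ⟨B, hB, rfl⟩ := sig_iff.1 hE
    obtain ⟨B2, hB2, rfl⟩ := sig_iff.1 hF
    have h1 := h.glue z c _ _ (sig_iff.2 ⟨B, hB, rfl⟩) (sig_iff.2 ⟨B2, hB2, rfl⟩)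
    rw [e1 z c _ _ B B2 hB hB2, e2 z c _ B hB, e2 (z + 1 + δ) (c + δ) _ B2 hB2] at h1
    exact h1
  · intro h
    refine ⟨hs, hcos.2 h.cos, ?_⟩
    intro z c E F hE hF
    obtain ⟨B, hB, rfl⟩ := sig_iff.1 hE
    obtain ⟨B2, hB2, rfl⟩ := sig_iff.1 hF
    rw [e1 z c _ _ B B2 hB hB2, e2 z c _ B hB, e2 (z + 1 + δ) (c + δ) _ B2 hB2]
    exact h.glue z c _ _ (sig_iff.2 ⟨B, hB, rfl⟩) (sig_iff.2 ⟨B2, hB2, rfl⟩)

end Pool.Agent.Helper80.OB
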